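import Pool.Agent.U476.SIC.Counts

/-!
# Systems of lines whose triple products have real cubes, and the number of phases
-/

set_option autoImplicit false

namespace Pool.Agent.U476.SIC

open Finset Matrix Pool.Agent.H109R2.SIC Pool.Agent.H109R2.Phases

variable {d : ℕ} {x : Fin (d ^ 2) → EuclideanSpace ℂ (Fin d)}

/-- the terms of the cubic form -/
noncomputable def sc (x : Fin (d ^ 2) → EuclideanSpace ℂ (Fin d)) (c : Fin (d ^ 2) → ℂ)
    (i j : Fin (d ^ 2)) : ℂ :=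
  star (c i) * c j * (((Real.sqrt ((d : ℝ) + 1) : ℝ) : ℂ) * inner ℂ (x i) (x j)) ^ 3

/-- restriction of the multipliers -/
noncomputable def cut (S : Finset (Fin (d ^ 2))) (c : Fin (d ^ 2) → ℂ) (j : Fin (d ^ 2)) : ℂ :=
  if j ∈ S then c j else 0

theorem cut_norm (S : Finset (Fin (d ^ 2))) (c : Fin (d ^ 2) → ℂ) (hc : ∀ i ∈ S, ‖c i‖ = 1) :
    ∑ k, ‖cut S c k‖ ^ 2 = (S.card : ℝ) := by
  have h1 : ∀ k, ‖cut S c k‖ ^ 2 = if k ∈ S then (1 : ℝ) else 0 := by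
    intro k
    unfold cut
    split_ifs with h
    · rw [hc k h, one_pow]
    · simp
  simp only [h1]
  rw [sum_ite_mem, univ_inter, sum_const, nsmul_eq_mul, mul_one]

theorem off_cut (S : Finset (Fin (d ^ 2))) (c : Fin (d ^ 2) → ℂ) :
    off x (cut S c) = ∑ i ∈ S, ∑ j ∈ S.erase i, sc x c i j := by
  unfold off
  rw [← sum_subset (subset_univ S)]
  · refine sum_congr rfl fun i hi => ?_
    rw [← sum_subset (erase_subset_erase i (subset_univ S))]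
    · refine sum_congr rfl fun j hj => ?_
      unfold cut sc
      rw [if_pos hi, if_pos (mem_of_mem_erase hj)]
    · intro j hj hjS
      have : j ∉ S := fun h => hjS (mem_erase.mpr ⟨ne_of_mem_erase hj, h⟩)
      unfold cut
      rw [if_neg this]
      simp
  · intro i _ hi
    refine sum_eq_zero fun j _ => ?_
    unfold cut
    rw [if_neg hi]
    simp

theorem near_pos (hx : IsMaxETF d x) (hd : 0 < d) (S : Finset (Fin (d ^ 2)))
    (c : Fin (d ^ 2) → ℂ) (hc : ∀ i ∈ S, ‖c i‖ = 1) (δ : ℝ) (hδ : 0 < δ)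
    (h : ∀ i ∈ S, ∀ j ∈ S, i ≠ j → δ ≤ (sc x c i j).re) :
    (S.card : ℝ) ≤ 1 + ((d : ℝ) - 1) * Real.sqrt ((d : ℝ) + 1) / δ := by
  have hdr : (1 : ℝ) ≤ d := by exact_mod_cast hd
  have hs : 0 < Real.sqrt ((d : ℝ) + 1) := Real.sqrt_pos.mpr (by positivity)
  rcases S.eq_empty_or_nonempty with rfl | hS
  · rw [card_empty, Nat.cast_zero]
    have := mul_nonneg (by linarith : (0 : ℝ) ≤ d - 1) hs.le
    positivity
  have h1 := (off_bounds hx hd (cut S c)).2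
  rw [cut_norm S c hc, off_cut, Complex.re_sum] at h1
  have h2 : ∀ i ∈ S, ((S.card : ℝ) - 1) * δ ≤ (∑ j ∈ S.erase i, sc x c i j).re := by
    intro i hi
    rw [Complex.re_sum]
    have h4 := card_nsmul_le_sum (S.erase i) (fun j => (sc x c i j).re) δ
      (fun j hj => h i hi j (mem_of_mem_erase hj) (ne_of_mem_erase hj).symm)
    rwa [nsmul_eq_mul, card_erase_of_mem hi, Nat.cast_sub (card_pos.mpr ⟨i, hi⟩),
      Nat.cast_one] at h4
  have h5 := card_nsmul_le_sum S _ _ h2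
  rw [nsmul_eq_mul] at h5
  have hpos : (0 : ℝ) < S.card := by exact_mod_cast card_pos.mpr hS
  have h6 : ((S.card : ℝ) - 1) * δ ≤ ((d : ℝ) - 1) * Real.sqrt ((d : ℝ) + 1) := by
    have := h5.trans h1
    rw [mul_comm (((d : ℝ) - 1) * Real.sqrt ((d : ℝ) + 1)) (S.card : ℝ)] at this
    exact le_of_mul_le_mul_left this hpos
  rw [← sub_le_iff_le_add', le_div_iff₀ hδ]
  exact h6

theorem near_neg (hx : IsMaxETF d x) (hd : 0 < d) (S : Finset (Fin (d ^ 2)))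
    (c : Fin (d ^ 2) → ℂ) (hc : ∀ i ∈ S, ‖c i‖ = 1) (δ : ℝ) (hδ : 0 < δ)
    (h : ∀ i ∈ S, ∀ j ∈ S, i ≠ j → (sc x c i j).re ≤ -δ) :
    (S.card : ℝ) ≤ 1 + Real.sqrt ((d : ℝ) + 1) ^ 3 / δ := by
  have hs : 0 < Real.sqrt ((d : ℝ) + 1) := Real.sqrt_pos.mpr (by positivity)
  rcases S.eq_empty_or_nonempty with rfl | hS
  · rw [card_empty, Nat.cast_zero]
    positivity
  have h1 := (off_bounds hx hd (cut S c)).1
  rw [cut_norm S c hc, off_cut, Complex.re_sum] at h1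
  have h2 : ∀ i ∈ S, (∑ j ∈ S.erase i, sc x c i j).re ≤ ((S.card : ℝ) - 1) * (-δ) := by
    intro i hi
    rw [Complex.re_sum]
    have h4 := sum_le_card_nsmul (S.erase i) (fun j => (sc x c i j).re) (-δ)
      (fun j hj => h i hi j (mem_of_mem_erase hj) (ne_of_mem_erase hj).symm)
    rwa [nsmul_eq_mul, card_erase_of_mem hi, Nat.cast_sub (card_pos.mpr ⟨i, hi⟩),
      Nat.cast_one] at h4
  have h5 := sum_le_card_nsmul S _ _ h2
  rw [nsmul_eq_mul] at h5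
  have hpos : (0 : ℝ) < S.card := by exact_mod_cast card_pos.mpr hS
  have h6 : ((S.card : ℝ) - 1) * δ ≤ Real.sqrt ((d : ℝ) + 1) ^ 3 := by
    have h7 := h1.trans h5
    have h8 : (S.card : ℝ) * (((S.card : ℝ) - 1) * δ) ≤
        S.card * Real.sqrt ((d : ℝ) + 1) ^ 3 := by linarith
    exact le_of_mul_le_mul_left h8 hpos
  rw [← sub_le_iff_le_add', le_div_iff₀ hδ]
  exact h6

theorem s_sq (i j : Fin (d ^ 2)) (hx : IsMaxETF d x) (hij : i ≠ j) :
    (((Real.sqrt ((d : ℝ) + 1) : ℝ) : ℂ) * inner ℂ (x i) (x j)) *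
      (((Real.sqrt ((d : ℝ) + 1) : ℝ) : ℂ) * inner ℂ (x j) (x i)) = 1 := by
  have h2 := inner_mul_inner hx i j
  rw [if_neg hij] at h2
  have h3 := sq_s (d := d)
  have h4 := d1_ne (d := d)
  calc _ = (((Real.sqrt ((d : ℝ) + 1) : ℝ) : ℂ) * ((Real.sqrt ((d : ℝ) + 1) : ℝ) : ℂ)) *
        (inner ℂ (x i) (x j) * inner ℂ (x j) (x i)) := by ring
    _ = 1 := by rw [h2, h3]; field_simp

/-- multipliers for a system of lines whose triple products have the cube `ε = ±1` -/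
theorem exists_mult (hx : IsMaxETF d x) (S : Finset (Fin (d ^ 2))) (ε : ℝ) (hε : ε ^ 2 = 1)
    (h : ∀ i ∈ S, ∀ j ∈ S, ∀ k ∈ S, i ≠ j → j ≠ k → k ≠ i → nt x i j k ^ 3 = (ε : ℂ)) :
    ∃ c : Fin (d ^ 2) → ℂ, (∀ i ∈ S, ‖c i‖ = 1) ∧
      ∀ i ∈ S, ∀ j ∈ S, i ≠ j → sc x c i j = (ε : ℂ) := by
  rcases S.eq_empty_or_nonempty with rfl | ⟨o, ho⟩
  · exact ⟨fun _ => 1, by simp, by simp⟩
  have hεc : (ε : ℂ) * (ε : ℂ) = 1 := by
    rw [← Complex.ofReal_mul, ← sq, hε, Complex.ofReal_one]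
  have hεn : ‖(ε : ℂ)‖ = 1 := by
    have : |ε| = 1 := by
      rw [← Real.sqrt_sq_eq_abs, hε, Real.sqrt_one]
    rw [Complex.norm_real, Real.norm_eq_abs, this]
  have hstarε : star (ε : ℂ) = (ε : ℂ) := Complex.conj_ofReal _
  have e1 : star ((Real.sqrt ((d : ℝ) + 1) : ℝ) : ℂ) = ((Real.sqrt ((d : ℝ) + 1) : ℝ) : ℂ) :=
    Complex.conj_ofReal _
  have e2 : ∀ i j : Fin (d ^ 2), star (inner ℂ (x i) (x j) : ℂ) = inner ℂ (x j) (x i) :=
    fun i j => inner_conj_symm _ _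
  refine ⟨fun j => if j = o then 1 else
    (ε : ℂ) * (((Real.sqrt ((d : ℝ) + 1) : ℝ) : ℂ) * inner ℂ (x j) (x o)) ^ 3, ?_, ?_⟩
  · intro i _
    beta_reduce
    split_ifs with hi
    · simp
    · rw [norm_mul, hεn, norm_pow, s_mul_norm hx hi]
      norm_num
  · intro i hi j hj hij
    unfold sc
    beta_reduce
    by_cases hio : i = o
    · subst hio
      rw [if_pos rfl, if_neg hij.symm, star_one, one_mul, mul_assoc, ← mul_pow,
        s_sq j i hx hij.symm, one_pow, mul_one]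
    · by_cases hjo : j = o
      · subst hjo
        rw [if_pos rfl, if_neg hio, mul_one, star_mul', hstarε, star_pow, star_mul', e1, e2,
          mul_assoc, ← mul_pow, s_sq j i hx hij.symm, one_pow, mul_one]
      · rw [if_neg hio, if_neg hjo, star_mul', hstarε, star_pow, star_mul', e1, e2]
        have h3 := h o ho i hi j hj (Ne.symm hio) hij hjo
        unfold nt at h3
        calc _ = ((ε : ℂ) * (ε : ℂ)) * ((((Real.sqrt ((d : ℝ) + 1) : ℝ) : ℂ) ^ 3 *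
              (inner ℂ (x o) (x i) * inner ℂ (x i) (x j) * inner ℂ (x j) (x o))) ^ 3) := by ring
          _ = (ε : ℂ) := by rw [hεc, h3, one_mul]

theorem cubic_pos (hx : IsMaxETF d x) (hd : 0 < d) (S : Finset (Fin (d ^ 2)))
    (h : ∀ i ∈ S, ∀ j ∈ S, ∀ k ∈ S, i ≠ j → j ≠ k → k ≠ i → nt x i j k ^ 3 = 1) :
    (S.card : ℝ) ≤ 1 + ((d : ℝ) - 1) * Real.sqrt ((d : ℝ) + 1) := by
  obtain ⟨c, hc, hc2⟩ := exists_mult hx S 1 (by norm_num) (by simpa using h)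
  have := near_pos hx hd S c hc 1 one_pos (fun i hi j hj hij => by
    rw [hc2 i hi j hj hij]; simp)
  simpa using this

theorem cubic_neg (hx : IsMaxETF d x) (hd : 0 < d) (S : Finset (Fin (d ^ 2)))
    (h : ∀ i ∈ S, ∀ j ∈ S, ∀ k ∈ S, i ≠ j → j ≠ k → k ≠ i → nt x i j k ^ 3 = -1) :
    (S.card : ℝ) ≤ 1 + Real.sqrt ((d : ℝ) + 1) ^ 3 := by
  obtain ⟨c, hc, hc2⟩ := exists_mult hx S (-1) (by norm_num) (by simpa using h)
  have := near_neg hx hd S c hc 1 one_pos (fun i hi j hj hij => by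
    rw [hc2 i hi j hj hij]; simp)
  simpa using this

/-- at least four phases through every line -/
theorem four_phases (hx : IsMaxETF d x) (hd : 35 ≤ d) (i : Fin (d ^ 2)) :
    4 ≤ ((pairs d i).image fun p => nt x i p.1 p.2).card := by
  classical
  by_contra hlt
  push Not at hlt
  have h3 : ((pairs d i).image fun p => nt x i p.1 p.2).card ≤ 3 := by omega
  have h1 := card_eq_sum_card_image (fun p : Fin (d ^ 2) × Fin (d ^ 2) => nt x i p.1 p.2)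
    (pairs d i)
  have hdr : (35 : ℝ) ≤ d := by exact_mod_cast hd
  have hs6 : 6 ≤ Real.sqrt ((d : ℝ) + 1) := by
    rw [Real.le_sqrt' (by norm_num)]
    linarith
  have hs2 : Real.sqrt ((d : ℝ) + 1) ^ 2 = (d : ℝ) + 1 := Real.sq_sqrt (by positivity)
  set s := Real.sqrt ((d : ℝ) + 1)
  have h2 : 8 * ((pairs d i).card : ℝ) ≤
      3 * (((d : ℝ) ^ 2 - 1) * (2 * (d : ℝ) ^ 2 + (4 * d - 5) * s)) := by
    rw [h1, Nat.cast_sum, mul_sum]
    refine (sum_le_card_nsmul _ _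
      (((d : ℝ) ^ 2 - 1) * (2 * (d : ℝ) ^ 2 + (4 * d - 5) * s)) ?_).trans ?_
    · intro w hw
      obtain ⟨p, hp, rfl⟩ := mem_image.mp hw
      refine count_le hx (by omega) i ?_
      rw [pairs, mem_filter] at hp
      exact nt_norm hx hp.2.1.symm hp.2.2.2 hp.2.2.1
    · rw [nsmul_eq_mul]
      refine mul_le_mul_of_nonneg_right (by exact_mod_cast h3) ?_
      apply mul_nonneg
      · nlinarith
      · have : 0 ≤ (4 * (d : ℝ) - 5) * s := mul_nonneg (by linarith) (by linarith)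
        nlinarith
  rw [m0r] at h2
  have hq : 0 < (d : ℝ) ^ 2 - 1 := by nlinarith
  have h4 : 8 * ((d : ℝ) ^ 2 - 2) ≤ 3 * (2 * (d : ℝ) ^ 2 + (4 * d - 5) * s) := by
    have : ((d : ℝ) ^ 2 - 1) * (8 * ((d : ℝ) ^ 2 - 2)) ≤
        ((d : ℝ) ^ 2 - 1) * (3 * (2 * (d : ℝ) ^ 2 + (4 * d - 5) * s)) := by linarith
    exact le_of_mul_le_mul_left this hq
  have h5 : 6 * s ≤ (d : ℝ) + 1 := by nlinarith
  have h6 : (4 * (d : ℝ) - 5) * (6 * s) ≤ (4 * (d : ℝ) - 5) * ((d : ℝ) + 1) :=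
    mul_le_mul_of_nonneg_left h5 (by linarith)
  nlinarith

/-- the simplified form for large dimension -/
theorem arc_large (hx : IsMaxETF d x) (hd : 5 ≤ d) (i : Fin (d ^ 2)) {w : ℂ} (hw : ‖w‖ = 1)
    {b : ℝ} (hb : 0 < b) (hb2 : 2 * b ^ 2 < 1)
    (hlarge : 24 ≤ b * (1 - 2 * b ^ 2) * Real.sqrt ((d : ℝ) + 1)) :
    b * (1 - 2 * b ^ 2) / 2 * ((pairs d i).card : ℝ) ≤
      (1 - b) * (1 + 2 * b) ^ 2 *
        (((pairs d i).filter fun p => b < (star w * nt x i p.1 p.2).re).card : ℝ) := by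
  refine le_trans ?_ (arc_ge hx (by omega) i hw hb hb2)
  have hdr : (5 : ℝ) ≤ d := by exact_mod_cast hd
  have hs2 : Real.sqrt ((d : ℝ) + 1) ^ 2 = (d : ℝ) + 1 := Real.sq_sqrt (by positivity)
  have hs1 : 1 ≤ Real.sqrt ((d : ℝ) + 1) := by
    rw [Real.one_le_sqrt]
    linarith
  have hb1 : b < 1 := by nlinarith
  rw [m0r]
  set s := Real.sqrt ((d : ℝ) + 1)
  set K := b * (1 - 2 * b ^ 2) with hK
  have hKpos : 0 < K := mul_pos hb (by linarith)
  have hq : 0 ≤ (d : ℝ) ^ 2 - 1 := by nlinarith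
  have hds : (d : ℝ) = s ^ 2 - 1 := by linarith
  -- the main inequality
  have h1 : (1 - b ^ 2) * ((d : ℝ) - 2) * s ≤ s ^ 3 := by
    have e1 : (1 - b ^ 2) * ((d : ℝ) - 2) ≤ 1 * ((d : ℝ) - 2) :=
      mul_le_mul_of_nonneg_right (by nlinarith) (by linarith)
    have e2 : (1 - b ^ 2) * ((d : ℝ) - 2) ≤ s ^ 2 := by linarith
    calc (1 - b ^ 2) * ((d : ℝ) - 2) * s ≤ s ^ 2 * s :=
          mul_le_mul_of_nonneg_right e2 (by linarith)
      _ = s ^ 3 := by ring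
  have h2 : 4 * b * (1 - b ^ 2) ≤ 4 := by nlinarith [mul_pos hb (mul_pos hb hb)]
  have h3 : b ^ 2 * s ^ 3 ≤ s ^ 3 := by
    have : 0 ≤ s ^ 3 := by positivity
    nlinarith
  have h4 : 1 ≤ s ^ 3 := one_le_pow₀ hs1
  have h5 : s ^ 4 / 2 ≤ (d : ℝ) ^ 2 - 2 := by
    rw [show s ^ 4 = (s ^ 2) ^ 2 by ring, hs2]
    nlinarith
  have h6 : 6 * s ^ 3 ≤ K / 2 * ((d : ℝ) ^ 2 - 2) := by
    have e1 : 24 * s ^ 3 ≤ K * s * s ^ 3 := mul_le_mul_of_nonneg_right hlarge (by positivity)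
    have e2 : K / 2 * (s ^ 4 / 2) ≤ K / 2 * ((d : ℝ) ^ 2 - 2) :=
      mul_le_mul_of_nonneg_left h5 (by linarith)
    nlinarith
  have h7 : K / 2 * ((d : ℝ) ^ 2 - 2) ≤ K * ((d : ℝ) ^ 2 - 2) -
      (1 - b ^ 2) * ((d : ℝ) - 2) * s - 4 * b * (1 - b ^ 2) - b ^ 2 * s ^ 3 := by linarith
  calc K / 2 * (((d : ℝ) ^ 2 - 1) * ((d : ℝ) ^ 2 - 2)) =
        ((d : ℝ) ^ 2 - 1) * (K / 2 * ((d : ℝ) ^ 2 - 2)) := by ring
    _ ≤ _ := mul_le_mul_of_nonneg_left h7 hq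

end Pool.Agent.U476.SIC
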