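import Pool.Agent.U476.SIC.Moments

/-!
# Repeated phases, arcs without phases, and cubic systems
-/

set_option autoImplicit false

namespace Pool.Agent.U476.SIC

open Finset Matrix Pool.Agent.H109R2.SIC Pool.Agent.H109R2.Phases

variable {d : ℕ} {x : Fin (d ^ 2) → EuclideanSpace ℂ (Fin d)}

theorem u_norm (hx : IsMaxETF d x) {i : Fin (d ^ 2)} {w : ℂ} (hw : ‖w‖ = 1)
    {p : Fin (d ^ 2) × Fin (d ^ 2)} (hp : p ∈ pairs d i) : ‖star w * nt x i p.1 p.2‖ = 1 := by
  rw [pairs, mem_filter] at hp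
  rw [norm_mul, norm_star, hw, one_mul, nt_norm hx hp.2.1.symm hp.2.2.2 hp.2.2.1]

/-- every phase value is taken by few pairs -/
theorem count_le (hx : IsMaxETF d x) (hd : 2 ≤ d) (i : Fin (d ^ 2)) {w : ℂ} (hw : ‖w‖ = 1) :
    8 * (((pairs d i).filter fun p => nt x i p.1 p.2 = w).card : ℝ) ≤
      ((d : ℝ) ^ 2 - 1) * (2 * (d : ℝ) ^ 2 + (4 * d - 5) * Real.sqrt ((d : ℝ) + 1)) := by
  classical
  obtain ⟨h1, h2, h3⟩ := moments hx hd i hw
  have hs2 : Real.sqrt ((d : ℝ) + 1) ^ 2 = (d : ℝ) + 1 := Real.sq_sqrt (by positivity)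
  have h0 := m0r (d := d) i
  have hc : 8 * (((pairs d i).filter fun p => nt x i p.1 p.2 = w).card : ℝ) ≤
      ∑ p ∈ pairs d i, (2 + 2 * ((star w * nt x i p.1 p.2) ^ 2).re +
        3 * (star w * nt x i p.1 p.2).re + ((star w * nt x i p.1 p.2) ^ 3).re) := by
    rw [card_filter, Nat.cast_sum, mul_sum]
    refine sum_le_sum fun p hp => ?_
    have hu := u_norm hx hw hp
    rw [re2 hu, re3 hu]
    have hX : -1 ≤ (star w * nt x i p.1 p.2).re := by
      have := Complex.abs_re_le_norm (star w * nt x i p.1 p.2)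
      rw [hu] at this
      exact (abs_le.mp this).1
    split_ifs with hpw
    · have h5 : (star w * nt x i p.1 p.2).re = 1 := by
        rw [hpw]
        have : star w * w = 1 := by
          change (starRingEnd ℂ) w * w = 1
          rw [← Complex.normSq_eq_conj_mul_self (z := w), Complex.normSq_eq_norm_sq, hw]
          simp
        rw [this, Complex.one_re]
      rw [h5]
      norm_num
    · generalize (star w * nt x i p.1 p.2).re = X at hX
      push_cast
      nlinarith [mul_nonneg (sq_nonneg X) (by linarith : 0 ≤ X + 1)]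
  rw [sum_add_distrib, sum_add_distrib, sum_add_distrib, sum_const, nsmul_eq_mul, ← mul_sum,
    ← mul_sum, h0] at hc
  have h1' := (abs_le.mp h1).2
  have h2' := (abs_le.mp h2).2
  have h3' := (abs_le.mp h3).2
  have e : Real.sqrt ((d : ℝ) + 1) ^ 3 = ((d : ℝ) + 1) * Real.sqrt ((d : ℝ) + 1) := by
    rw [pow_succ, hs2]
  rw [e] at h3'
  refine hc.trans ?_
  calc _ ≤ ((d : ℝ) ^ 2 - 1) * ((d : ℝ) ^ 2 - 2) * 2 + 2 * (2 * ((d : ℝ) ^ 2 - 1)) +
        3 * (((d : ℝ) ^ 2 - 1) * ((d : ℝ) - 2) * Real.sqrt ((d : ℝ) + 1)) +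
        ((d : ℝ) + 1) * Real.sqrt ((d : ℝ) + 1) * ((d : ℝ) ^ 2 - 1) := by linarith
    _ = _ := by ring

/-- arcs a little longer than a quarter of the circle contain many phases -/
theorem arc_ge (hx : IsMaxETF d x) (hd : 2 ≤ d) (i : Fin (d ^ 2)) {w : ℂ} (hw : ‖w‖ = 1)
    {b : ℝ} (hb : 0 < b) (hb2 : 2 * b ^ 2 < 1) :
    ((d : ℝ) ^ 2 - 1) * (b * (1 - 2 * b ^ 2) * ((d : ℝ) ^ 2 - 2) -
        (1 - b ^ 2) * ((d : ℝ) - 2) * Real.sqrt ((d : ℝ) + 1) - 4 * b * (1 - b ^ 2) -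
        b ^ 2 * Real.sqrt ((d : ℝ) + 1) ^ 3) ≤
      (1 - b) * (1 + 2 * b) ^ 2 *
        (((pairs d i).filter fun p => b < (star w * nt x i p.1 p.2).re).card : ℝ) := by
  classical
  obtain ⟨h1, h2, h3⟩ := moments hx hd i hw
  have h0 := m0r (d := d) i
  have hb1 : b < 1 := by nlinarith
  have hc : ∑ p ∈ pairs d i, (b * (1 - 2 * b ^ 2) +
        (1 - b ^ 2) * (star w * nt x i p.1 p.2).re +
        2 * b * (1 - b ^ 2) * ((star w * nt x i p.1 p.2) ^ 2).re +
        b ^ 2 * ((star w * nt x i p.1 p.2) ^ 3).re) ≤ (1 - b) * (1 + 2 * b) ^ 2 *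
        (((pairs d i).filter fun p => b < (star w * nt x i p.1 p.2).re).card : ℝ) := by
    rw [card_filter, Nat.cast_sum, mul_sum]
    refine sum_le_sum fun p hp => ?_
    have hu := u_norm hx hw hp
    rw [re2 hu, re3 hu]
    have hX : |(star w * nt x i p.1 p.2).re| ≤ 1 := by
      have := Complex.abs_re_le_norm (star w * nt x i p.1 p.2)
      rwa [hu] at this
    generalize (star w * nt x i p.1 p.2).re = X at hX
    obtain ⟨hX1, hX2⟩ := abs_le.mp hX
    have e : b * (1 - 2 * b ^ 2) + (1 - b ^ 2) * X + 2 * b * (1 - b ^ 2) * (2 * X ^ 2 - 1) +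
        b ^ 2 * (4 * X ^ 3 - 3 * X) = (X - b) * (2 * b * X + 1) ^ 2 := by ring
    rw [e]
    split_ifs with hpw
    · push_cast
      rw [mul_one]
      have h5 : (2 * b * X + 1) ^ 2 ≤ (1 + 2 * b) ^ 2 := by
        apply pow_le_pow_left₀
        · nlinarith
        · nlinarith
      exact mul_le_mul (by linarith) h5 (sq_nonneg _) (by linarith)
    · push_cast
      rw [mul_zero]
      exact mul_nonpos_of_nonpos_of_nonneg (by linarith) (sq_nonneg _)
  refine le_trans ?_ hc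
  rw [sum_add_distrib, sum_add_distrib, sum_add_distrib, sum_const, nsmul_eq_mul, ← mul_sum,
    ← mul_sum, ← mul_sum, h0]
  have h1' := (abs_le.mp h1).1
  have h2' := (abs_le.mp h2).1
  have h3' := (abs_le.mp h3).1
  have g1 := mul_le_mul_of_nonneg_left h1' (by nlinarith : 0 ≤ 1 - b ^ 2)
  have g2 := mul_le_mul_of_nonneg_left h2'
    (by apply mul_nonneg (by linarith); nlinarith : 0 ≤ 2 * b * (1 - b ^ 2))
  have g3 := mul_le_mul_of_nonneg_left h3' (sq_nonneg b)
  nlinarith [g1, g2, g3]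

end Pool.Agent.U476.SIC
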