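import Pool.Agent.R114.SIC.RealNear
import Pool.Agent.H109R2.Phases

/-!
# The entrywise cube of the Gram matrix of a maximal equiangular tight frame
-/

set_option autoImplicit false

namespace Pool.Agent.U476.SIC

open Finset Matrix Pool.Agent.H109R2.SIC Pool.Agent.H109R2.Phases

variable {d : ℕ} {x : Fin (d ^ 2) → EuclideanSpace ℂ (Fin d)}

/-- the cubic form -/
noncomputable def cf (x : Fin (d ^ 2) → EuclideanSpace ℂ (Fin d)) (b : Fin (d ^ 2) → ℂ) : ℂ :=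
  ∑ i, ∑ j, star (b i) * b j * (inner ℂ (x i) (x j)) ^ 3

theorem cf_eq (b : Fin (d ^ 2) → ℂ) :
    cf x b = ∑ a, Pool.Agent.R114.SIC.qf x (fun j => b j * x j a) (fun j => b j * x j a) := by
  unfold cf Pool.Agent.R114.SIC.qf
  rw [Finset.sum_comm (s := (univ : Finset (Fin d)))]
  refine Finset.sum_congr rfl fun i _ => ?_
  rw [Finset.sum_comm (s := (univ : Finset (Fin d)))]
  refine Finset.sum_congr rfl fun j _ => ?_
  have h : star (b i) * b j * (inner ℂ (x i) (x j) : ℂ) ^ 3 =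
      (∑ a, star (x i a) * x j a) * (star (b i) * b j * (inner ℂ (x i) (x j) : ℂ) ^ 2) := by
    rw [← inner_eq (x i) (x j)]
    ring
  rw [h, Finset.sum_mul]
  refine Finset.sum_congr rfl fun a _ => ?_
  rw [star_mul']
  ring

theorem sum_coord (hx : IsMaxETF d x) (b : Fin (d ^ 2) → ℂ) :
    ∑ a, ∑ k, ‖b k * x k a‖ ^ 2 = ∑ k, ‖b k‖ ^ 2 := by
  rw [Finset.sum_comm]
  refine Finset.sum_congr rfl fun k _ => ?_
  have h1 : ∑ a, ‖x k a‖ ^ 2 = 1 := by
    rw [← EuclideanSpace.norm_sq_eq, hx.1 k, one_pow]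
  simp only [norm_mul, mul_pow]
  rw [← Finset.mul_sum, h1, mul_one]

theorem cf_im (b : Fin (d ^ 2) → ℂ) : (cf x b).im = 0 := by
  rw [cf_eq, Complex.im_sum]
  refine Finset.sum_eq_zero fun a _ => ?_
  rw [Pool.Agent.R114.SIC.qf_eq_norm, Complex.ofReal_im]

theorem cf_re_nonneg (b : Fin (d ^ 2) → ℂ) : 0 ≤ (cf x b).re := by
  rw [cf_eq, Complex.re_sum]
  exact Finset.sum_nonneg fun a _ => Pool.Agent.R114.SIC.qf_re_nonneg _

theorem cf_re_le (hx : IsMaxETF d x) (hd : 0 < d) (b : Fin (d ^ 2) → ℂ) :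
    (cf x b).re ≤ (2 * d / ((d : ℝ) + 1)) * ∑ k, ‖b k‖ ^ 2 := by
  rw [cf_eq, Complex.re_sum, ← sum_coord hx, Finset.mul_sum]
  exact Finset.sum_le_sum fun a _ => Pool.Agent.R114.SIC.qf_re_le hx hd _

/-- the off-diagonal form of the entrywise cube of the signature matrix -/
noncomputable def off (x : Fin (d ^ 2) → EuclideanSpace ℂ (Fin d)) (b : Fin (d ^ 2) → ℂ) : ℂ :=
  ∑ i, ∑ j ∈ univ.erase i,
    star (b i) * b j * (((Real.sqrt ((d : ℝ) + 1) : ℝ) : ℂ) * inner ℂ (x i) (x j)) ^ 3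

theorem off_eq (hx : IsMaxETF d x) (b : Fin (d ^ 2) → ℂ) :
    off x b = (((Real.sqrt ((d : ℝ) + 1) ^ 3 : ℝ)) : ℂ) *
      (cf x b - ((∑ k, ‖b k‖ ^ 2 : ℝ) : ℂ)) := by
  rw [← Pool.Agent.R114.SIC.norm_sum_eq]
  unfold off cf
  rw [← Finset.sum_sub_distrib, Finset.mul_sum]
  refine Finset.sum_congr rfl fun i _ => ?_
  rw [← Finset.add_sum_erase univ (fun j => star (b i) * b j * (inner ℂ (x i) (x j)) ^ 3)
    (Finset.mem_univ i), self_inner hx, one_pow, mul_one, add_sub_cancel_left, Finset.mul_sum]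
  refine Finset.sum_congr rfl fun j _ => ?_
  push_cast
  ring

theorem off_real (hx : IsMaxETF d x) (b : Fin (d ^ 2) → ℂ) :
    off x b = (((off x b).re : ℝ) : ℂ) := by
  apply Complex.ext
  · simp
  · rw [Complex.ofReal_im, off_eq hx]
    rw [Complex.im_ofReal_mul, Complex.sub_im, cf_im, Complex.ofReal_im]
    simp

theorem off_bounds (hx : IsMaxETF d x) (hd : 0 < d) (b : Fin (d ^ 2) → ℂ) :
    -(Real.sqrt ((d : ℝ) + 1) ^ 3) * ∑ k, ‖b k‖ ^ 2 ≤ (off x b).re ∧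
      (off x b).re ≤ ((d : ℝ) - 1) * Real.sqrt ((d : ℝ) + 1) * ∑ k, ‖b k‖ ^ 2 := by
  have h1 : (off x b).re = Real.sqrt ((d : ℝ) + 1) ^ 3 * ((cf x b).re - ∑ k, ‖b k‖ ^ 2) := by
    rw [off_eq hx, Complex.re_ofReal_mul, Complex.sub_re, Complex.ofReal_re]
  have h2 := cf_re_nonneg (x := x) b
  have h3 := cf_re_le hx hd b
  have hs : 0 < Real.sqrt ((d : ℝ) + 1) := Real.sqrt_pos.mpr (by positivity)
  have hs2 : Real.sqrt ((d : ℝ) + 1) ^ 2 = (d : ℝ) + 1 := Real.sq_sqrt (by positivity)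
  set s := Real.sqrt ((d : ℝ) + 1)
  set B := ∑ k, ‖b k‖ ^ 2
  rw [h1]
  constructor
  · have := mul_nonneg (pow_pos hs 3).le h2
    nlinarith
  · have h4 : s ^ 3 * ((cf x b).re - B) ≤ s ^ 3 * ((2 * d / ((d : ℝ) + 1)) * B - B) :=
      mul_le_mul_of_nonneg_left (by linarith) (pow_pos hs 3).le
    refine h4.trans (le_of_eq ?_)
    have h5 : (d : ℝ) + 1 ≠ 0 := by positivity
    rw [show s ^ 3 = s ^ 2 * s by ring, hs2]
    field_simp
    ring

end Pool.Agent.U476.SIC
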