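import Pool.Agent.U476.SIC.Cubic

/-!
# Three moments of the phases of the triple products through a line
-/

set_option autoImplicit false

namespace Pool.Agent.U476.SIC

open Finset Matrix Pool.Agent.H109R2.SIC Pool.Agent.H109R2.Phases

variable {d : ℕ} {x : Fin (d ^ 2) → EuclideanSpace ℂ (Fin d)}

/-- ordered pairs of different lines, both different from `i` -/
def pairs (d : ℕ) (i : Fin (d ^ 2)) : Finset (Fin (d ^ 2) × Fin (d ^ 2)) :=
  univ.filter fun p => p.1 ≠ i ∧ p.2 ≠ i ∧ p.1 ≠ p.2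

theorem sum_pairs (i : Fin (d ^ 2)) (f : Fin (d ^ 2) → Fin (d ^ 2) → ℂ) :
    ∑ p ∈ pairs d i, f p.1 p.2 = ∑ j ∈ univ.erase i, ∑ k ∈ others i j, f j k := by
  apply Finset.sum_finset_product'
  intro p
  simp only [pairs, others, mem_filter, mem_univ, true_and, mem_erase, and_true]
  constructor
  · rintro ⟨h1, h2, h3⟩
    exact ⟨h1, fun h => h3 h.symm, h2⟩
  · rintro ⟨h1, h2, h3⟩
    exact ⟨h1, h3, fun h => h2 h.symm⟩

theorem d2_pos (i : Fin (d ^ 2)) : 1 ≤ d ^ 2 := by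
  have := i.pos
  omega

theorem card_erase_c (i : Fin (d ^ 2)) :
    (((univ : Finset (Fin (d ^ 2))).erase i).card : ℂ) = (d : ℂ) ^ 2 - 1 := by
  rw [card_erase_of_mem (mem_univ i), card_univ, Fintype.card_fin, Nat.cast_sub (d2_pos i)]
  push_cast
  ring

theorem m0 (i : Fin (d ^ 2)) :
    ((pairs d i).card : ℂ) = ((d : ℂ) ^ 2 - 1) * ((d : ℂ) ^ 2 - 2) := by
  have h := sum_pairs i (fun _ _ => (1 : ℂ))
  rw [sum_const, nsmul_eq_mul, mul_one] at h
  rw [h]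
  have h2 : ∀ j ∈ univ.erase i, ∑ k ∈ others i j, (1 : ℂ) = (d : ℂ) ^ 2 - 2 := by
    intro j hj
    rw [sum_const, nsmul_eq_mul, mul_one, card_others (ne_of_mem_erase hj).symm]
  rw [sum_congr rfl h2, sum_const, nsmul_eq_mul, card_erase_c]

theorem m0r (i : Fin (d ^ 2)) :
    ((pairs d i).card : ℝ) = ((d : ℝ) ^ 2 - 1) * ((d : ℝ) ^ 2 - 2) := by
  apply Complex.ofReal_injective
  push_cast
  exact m0 i

theorem m1 (hx : IsMaxETF d x) (i : Fin (d ^ 2)) :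
    ∑ p ∈ pairs d i, nt x i p.1 p.2 =
      (((((d : ℝ) ^ 2 - 1) * ((d : ℝ) - 2) * Real.sqrt ((d : ℝ) + 1) : ℝ)) : ℂ) := by
  rw [sum_pairs i (fun j k => nt x i j k)]
  have h2 : ∀ j ∈ univ.erase i, ∑ k ∈ others i j, nt x i j k =
      ((Real.sqrt ((d : ℝ) + 1) : ℝ) : ℂ) * ((d : ℂ) - 2) := by
    intro j hj
    have h := congrArg star (sum1 hx (ne_of_mem_erase hj).symm)
    rw [star_sum] at h
    simp only [nt_conj] at h
    rw [h, star_mul']
    have e1 : star ((Real.sqrt ((d : ℝ) + 1) : ℝ) : ℂ) = ((Real.sqrt ((d : ℝ) + 1) : ℝ) : ℂ) :=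
      Complex.conj_ofReal _
    have e2 : star ((d : ℂ) - 2) = (d : ℂ) - 2 := by simp
    rw [e1, e2]
  rw [sum_congr rfl h2, sum_const, nsmul_eq_mul, card_erase_c]
  push_cast
  ring

theorem m2 (hx : IsMaxETF d x) (i : Fin (d ^ 2)) :
    ∑ p ∈ pairs d i, nt x i p.1 p.2 ^ 2 = (((-2 * ((d : ℝ) ^ 2 - 1) : ℝ)) : ℂ) := by
  rw [sum_pairs i (fun j k => nt x i j k ^ 2)]
  have h2 : ∀ j ∈ univ.erase i, ∑ k ∈ others i j, nt x i j k ^ 2 = -2 := by
    intro j hj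
    have h := congrArg star (sum2 hx (ne_of_mem_erase hj).symm)
    rw [star_sum] at h
    simp only [star_pow, nt_conj] at h
    rw [h]
    simp
  rw [sum_congr rfl h2, sum_const, nsmul_eq_mul, card_erase_c]
  push_cast
  ring

/-- the multipliers for the third moment -/
noncomputable def bb (x : Fin (d ^ 2) → EuclideanSpace ℂ (Fin d)) (i j : Fin (d ^ 2)) : ℂ :=
  if j = i then 0 else (((Real.sqrt ((d : ℝ) + 1) : ℝ) : ℂ) * inner ℂ (x j) (x i)) ^ 3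

theorem s_mul_norm (hx : IsMaxETF d x) {i j : Fin (d ^ 2)} (hij : i ≠ j) :
    ‖((Real.sqrt ((d : ℝ) + 1) : ℝ) : ℂ) * inner ℂ (x i) (x j)‖ = 1 := by
  have h1 : 0 < Real.sqrt ((d : ℝ) + 1) := Real.sqrt_pos.mpr (by positivity)
  rw [norm_mul, hx.2 i j hij, Complex.norm_real, Real.norm_eq_abs, abs_of_pos h1]
  field_simp

theorem bb_norm (hx : IsMaxETF d x) (i : Fin (d ^ 2)) :
    ∑ k, ‖bb x i k‖ ^ 2 = (d : ℝ) ^ 2 - 1 := by
  rw [← add_sum_erase univ _ (mem_univ i)]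
  have h1 : ∀ k ∈ univ.erase i, ‖bb x i k‖ ^ 2 = 1 := by
    intro k hk
    unfold bb
    rw [if_neg (ne_of_mem_erase hk), norm_pow, s_mul_norm hx (ne_of_mem_erase hk)]
    norm_num
  rw [sum_congr rfl h1]
  have h2 : bb x i i = 0 := by unfold bb; rw [if_pos rfl]
  rw [h2, sum_const, nsmul_eq_mul, mul_one]
  have h3 := card_erase_c i
  have h4 : (((univ : Finset (Fin (d ^ 2))).erase i).card : ℝ) = (d : ℝ) ^ 2 - 1 := by
    apply Complex.ofReal_injective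
    push_cast
    exact h3
  rw [h4]
  simp

theorem m3_eq (i : Fin (d ^ 2)) :
    ∑ p ∈ pairs d i, nt x i p.1 p.2 ^ 3 = off x (bb x i) := by
  rw [sum_pairs i (fun j k => nt x i j k ^ 3)]
  unfold off
  rw [← add_sum_erase univ (fun j => ∑ k ∈ univ.erase j, star (bb x i j) * bb x i k *
    (((Real.sqrt ((d : ℝ) + 1) : ℝ) : ℂ) * inner ℂ (x j) (x k)) ^ 3) (mem_univ i)]
  have h0 : bb x i i = 0 := by unfold bb; rw [if_pos rfl]
  have h1 : ∑ k ∈ univ.erase i, star (bb x i i) * bb x i k *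
    (((Real.sqrt ((d : ℝ) + 1) : ℝ) : ℂ) * inner ℂ (x i) (x k)) ^ 3 = 0 := by
    rw [h0]
    simp
  rw [h1, zero_add]
  refine sum_congr rfl fun j hj => ?_
  have hji := ne_of_mem_erase hj
  rw [← add_sum_erase (univ.erase j) _ (mem_erase.mpr ⟨hji.symm, mem_univ i⟩), h0, mul_zero,
    zero_mul, zero_add, others, erase_right_comm]
  refine sum_congr rfl fun k hk => ?_
  have hki : k ≠ i := by
    rw [mem_erase] at hk
    exact hk.1
  unfold bb nt
  rw [if_neg hji, if_neg hki]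
  have e1 : star ((Real.sqrt ((d : ℝ) + 1) : ℝ) : ℂ) = ((Real.sqrt ((d : ℝ) + 1) : ℝ) : ℂ) :=
    Complex.conj_ofReal _
  have e2 : star (inner ℂ (x j) (x i) : ℂ) = inner ℂ (x i) (x j) := inner_conj_symm _ _
  rw [star_pow, star_mul', e1, e2]
  ring

theorem m3 (hx : IsMaxETF d x) (hd : 0 < d) (i : Fin (d ^ 2)) : ∃ r : ℝ,
    ∑ p ∈ pairs d i, nt x i p.1 p.2 ^ 3 = (r : ℂ) ∧
    -(Real.sqrt ((d : ℝ) + 1) ^ 3) * ((d : ℝ) ^ 2 - 1) ≤ r ∧
      r ≤ ((d : ℝ) - 1) * Real.sqrt ((d : ℝ) + 1) * ((d : ℝ) ^ 2 - 1) := by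
  refine ⟨(off x (bb x i)).re, ?_, ?_⟩
  · rw [m3_eq]
    exact off_real hx _
  · have h := off_bounds hx hd (bb x i)
    rwa [bb_norm hx] at h

theorem re2 {u : ℂ} (hu : ‖u‖ = 1) : (u ^ 2).re = 2 * u.re ^ 2 - 1 := by
  have h1 : u.re ^ 2 + u.im ^ 2 = 1 := by
    have := Complex.sq_norm u
    rw [hu, Complex.normSq_apply] at this
    linarith
  rw [pow_two, Complex.mul_re]
  linarith

theorem re3 {u : ℂ} (hu : ‖u‖ = 1) : (u ^ 3).re = 4 * u.re ^ 3 - 3 * u.re := by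
  have h1 : u.im ^ 2 = 1 - u.re ^ 2 := by
    have := Complex.sq_norm u
    rw [hu, Complex.normSq_apply] at this
    linarith
  rw [pow_three, Complex.mul_re, Complex.mul_re, Complex.mul_im]
  linear_combination (-3 * u.re) * h1

/-- the three real moments against a unit number -/
theorem moments (hx : IsMaxETF d x) (hd : 2 ≤ d) (i : Fin (d ^ 2)) {w : ℂ} (hw : ‖w‖ = 1) :
    |∑ p ∈ pairs d i, (star w * nt x i p.1 p.2).re| ≤
        ((d : ℝ) ^ 2 - 1) * ((d : ℝ) - 2) * Real.sqrt ((d : ℝ) + 1) ∧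
      |∑ p ∈ pairs d i, ((star w * nt x i p.1 p.2) ^ 2).re| ≤ 2 * ((d : ℝ) ^ 2 - 1) ∧
      |∑ p ∈ pairs d i, ((star w * nt x i p.1 p.2) ^ 3).re| ≤
        Real.sqrt ((d : ℝ) + 1) ^ 3 * ((d : ℝ) ^ 2 - 1) := by
  have hdr : (2 : ℝ) ≤ d := by exact_mod_cast hd
  have hs : 0 < Real.sqrt ((d : ℝ) + 1) := Real.sqrt_pos.mpr (by positivity)
  have hs2 : Real.sqrt ((d : ℝ) + 1) ^ 2 = (d : ℝ) + 1 := Real.sq_sqrt (by positivity)
  have hq : 0 ≤ (d : ℝ) ^ 2 - 1 := by nlinarith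
  have key : ∀ (m : ℕ) (r : ℝ), ∑ p ∈ pairs d i, nt x i p.1 p.2 ^ m = (r : ℂ) →
      |∑ p ∈ pairs d i, ((star w * nt x i p.1 p.2) ^ m).re| ≤ |r| := by
    intro m r h
    rw [← Complex.re_sum]
    simp only [mul_pow]
    rw [← mul_sum, h]
    refine (Complex.abs_re_le_norm _).trans ?_
    rw [norm_mul, norm_pow, norm_star, hw, one_pow, one_mul, Complex.norm_real, Real.norm_eq_abs]
  refine ⟨?_, ?_, ?_⟩
  · have h := key 1 _ (by simpa only [pow_one] using m1 hx i)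
    simp only [pow_one] at h
    rwa [abs_of_nonneg (mul_nonneg (mul_nonneg hq (by linarith)) hs.le)] at h
  · have h := key 2 _ (m2 hx i)
    have h2 : |-2 * ((d : ℝ) ^ 2 - 1)| = 2 * ((d : ℝ) ^ 2 - 1) := by
      rw [abs_mul, abs_of_nonneg hq]
      norm_num
    rwa [h2] at h
  · obtain ⟨r, hr, hr1, hr2⟩ := m3 hx (by omega) i
    refine (key 3 r hr).trans ?_
    rw [abs_le]
    constructor
    · linarith
    · refine hr2.trans (mul_le_mul_of_nonneg_right ?_ hq)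
      rw [pow_succ, hs2]
      exact mul_le_mul_of_nonneg_right (by linarith) hs.le

end Pool.Agent.U476.SIC
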